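import Pool.Agent.H629.CG.Stm

/-!
# Project CG (helper629), MP_e22585_pr, task KMON (helper155): Gaussian interpolation
-/

set_option autoImplicit false

namespace Pool.Agent.H155.CG.KMON

open MeasureTheory ProbabilityTheory Filter Topology Set
open scoped ENNReal NNReal
open Pool.Agent.H629.CG

lemma ee_pos {n N : ℕ} (ξ : Fin n → Fin N → ℝ) (i : Fin n) (z : Fin N → ℝ) : 0 < ee ξ i z :=
  Real.exp_pos _

lemma WW_pos {n N : ℕ} (hn : 0 < n) (ξ : Fin n → Fin N → ℝ) (z : Fin N → ℝ) : 0 < WW ξ z := by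
  have : Nonempty (Fin n) := ⟨⟨0, hn⟩⟩
  exact Finset.sum_pos (fun i _ => ee_pos ξ i z) Finset.univ_nonempty

lemma F_cont {F F1 F2 : ℝ → ℝ} (hG : Good F F1 F2) : ContinuousOn F (Ioi 0) :=
  fun w hw => (hG.d1 w hw).continuousAt.continuousWithinAt

lemma cont_WW {n N : ℕ} (ξ : Fin n → Fin N → ℝ) : Continuous (fun z => WW ξ z) := by
  unfold WW ee
  fun_prop

lemma cont_FWW {n N : ℕ} (hn : 0 < n) {F F1 F2 : ℝ → ℝ} (hG : Good F F1 F2)
    (ξ : Fin n → Fin N → ℝ) : Continuous (fun z => F (WW ξ z)) :=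
  (F_cont hG).comp_continuous (cont_WW ξ) fun z => WW_pos hn ξ z

/-- Integrability. -/
lemma integrable_FWW (hD : S_KDOM) {n N : ℕ} (hn : 0 < n) {F F1 F2 : ℝ → ℝ} (hG : Good F F1 F2)
    (ξ : Fin n → Fin N → ℝ) : Integrable (fun z => F (WW ξ z)) (gam N) := by
  obtain ⟨hI, hB⟩ := hD
  obtain ⟨C, m, hC, hm, hb⟩ := hG.bd
  set R : ℝ := ∑ i, ∑ k, |ξ i k| with hR
  have hξ : ∀ i k, |ξ i k| ≤ R := fun i k =>
    (Finset.single_le_sum (f := fun k => |ξ i k|) (fun _ _ => abs_nonneg _)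
      (Finset.mem_univ k)).trans
    (Finset.single_le_sum (f := fun i => ∑ k, |ξ i k|)
      (fun _ _ => Finset.sum_nonneg fun _ _ => abs_nonneg _) (Finset.mem_univ i))
  obtain ⟨C1, c1, h1⟩ := hB n N hn R m
  obtain ⟨C2, c2, h2⟩ := hB n N hn R (-m)
  have h3 : Integrable (fun z : Fin N → ℝ => C * (C1 * Real.exp (c1 * ∑ k, |z k|) +
      C2 * Real.exp (c2 * ∑ k, |z k|))) (gam N) :=
    (((hI N c1).const_mul C1).add ((hI N c2).const_mul C2)).const_mul C
  refine h3.mono' (cont_FWW hn hG ξ).aestronglyMeasurable (Filter.Eventually.of_forall fun z => ?_)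
  rw [Real.norm_eq_abs]
  refine (hb _ (WW_pos hn ξ z)).1.trans (mul_le_mul_of_nonneg_left ?_ hC)
  exact add_le_add (h1 ξ hξ z).1 (h2 ξ hξ z).1

/-- Equal Gram matrices give equal integrals. -/
lemma integral_gram (hU : S_KUNIQ) {n N M : ℕ} (hn : 0 < n) {F F1 F2 : ℝ → ℝ}
    (hG : Good F F1 F2) (A : Fin n → Fin N → ℝ) (B : Fin n → Fin M → ℝ)
    (h : ∀ i j, ∑ k, A i k * A j k = ∑ k, B i k * B j k) :
    ∫ z, F (WW A z) ∂gam N = ∫ z, F (WW B z) ∂gam M := by
  have h0 := hU n N M A B h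
  set c : Fin n → ℝ := fun i => (∑ k, A i k ^ 2) / 2 with hc
  set G : (Fin n → ℝ) → ℝ := fun y => F (∑ i, Real.exp (y i - c i)) with hGdef
  have : Nonempty (Fin n) := ⟨⟨0, hn⟩⟩
  have hGc : Continuous G := by
    refine (F_cont hG).comp_continuous (by fun_prop) fun y => ?_
    exact Finset.sum_pos (fun i _ => Real.exp_pos _) Finset.univ_nonempty
  have hA : ∀ z, F (WW A z) = G (fun i => ∑ k, A i k * z k) := fun z => rfl
  have hB : ∀ z, F (WW B z) = G (fun i => ∑ k, B i k * z k) := fun z => by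
    have h1 : ∀ i, (∑ k, B i k ^ 2) / 2 = c i := fun i => by
      rw [hc]
      simp only [pow_two]
      rw [h i i]
    simp only [hGdef, WW, ee, h1]
  have hmA : Measurable (fun (z : Fin N → ℝ) (i : Fin n) => ∑ k, A i k * z k) := by fun_prop
  have hmB : Measurable (fun (z : Fin M → ℝ) (i : Fin n) => ∑ k, B i k * z k) := by fun_prop
  calc ∫ z, F (WW A z) ∂gam N = ∫ z, G (fun i => ∑ k, A i k * z k) ∂gam N := by simp only [hA]
    _ = ∫ y, G y ∂(gam N).map (fun (z : Fin N → ℝ) (i : Fin n) => ∑ k, A i k * z k) :=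
        (integral_map hmA.aemeasurable hGc.aestronglyMeasurable).symm
    _ = ∫ y, G y ∂(gam M).map (fun (z : Fin M → ℝ) (i : Fin n) => ∑ k, B i k * z k) := by rw [h0]
    _ = ∫ z, G (fun i => ∑ k, B i k * z k) ∂gam M :=
        integral_map hmB.aemeasurable hGc.aestronglyMeasurable
    _ = ∫ z, F (WW B z) ∂gam M := by simp only [hB]

/-- The curve. -/
noncomputable def cv {n N : ℕ} (A B : Fin n → Fin N → ℝ) (θ : ℝ) (i : Fin n) : Fin (N + N) → ℝ :=
  Fin.append (fun k => Real.cos θ * A i k) (fun k => Real.sin θ * B i k)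

/-- The derivative of the curve. -/
noncomputable def cv' {n N : ℕ} (A B : Fin n → Fin N → ℝ) (θ : ℝ) (i : Fin n) : Fin (N + N) → ℝ :=
  Fin.append (fun k => -Real.sin θ * A i k) (fun k => Real.cos θ * B i k)

lemma hasDerivAt_cv {n N : ℕ} (A B : Fin n → Fin N → ℝ) (θ : ℝ) (i : Fin n) (k : Fin (N + N)) :
    HasDerivAt (fun τ => cv A B τ i k) (cv' A B θ i k) θ := by
  unfold cv cv'
  induction k using Fin.addCases with
  | left k =>
    simp only [Fin.append_left]
    exact (Real.hasDerivAt_cos θ).mul_const _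
  | right k =>
    simp only [Fin.append_right]
    exact (Real.hasDerivAt_sin θ).mul_const _

lemma continuous_cv' {n N : ℕ} (A B : Fin n → Fin N → ℝ) (i : Fin n) (k : Fin (N + N)) :
    Continuous (fun θ => cv' A B θ i k) := by
  unfold cv'
  induction k using Fin.addCases with
  | left k =>
    simp only [Fin.append_left]
    exact (Real.continuous_sin.neg).mul continuous_const
  | right k =>
    simp only [Fin.append_right]
    exact Real.continuous_cos.mul continuous_const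

lemma sum_cv {n N : ℕ} (A B : Fin n → Fin N → ℝ) (θ : ℝ) (i j : Fin n) :
    ∑ k, cv A B θ i k * cv A B θ j k =
      Real.cos θ ^ 2 * ∑ k, A i k * A j k + Real.sin θ ^ 2 * ∑ k, B i k * B j k := by
  unfold cv
  rw [Fin.sum_univ_add]
  simp only [Fin.append_left, Fin.append_right]
  rw [Finset.mul_sum, Finset.mul_sum]
  congr 1
  · exact Finset.sum_congr rfl fun k _ => by ring
  · exact Finset.sum_congr rfl fun k _ => by ring

lemma sum_cv' {n N : ℕ} (A B : Fin n → Fin N → ℝ) (θ : ℝ) (i j : Fin n) :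
    ∑ k, cv' A B θ i k * cv A B θ j k =
      Real.sin θ * Real.cos θ * (∑ k, B i k * B j k - ∑ k, A i k * A j k) := by
  unfold cv cv'
  rw [Fin.sum_univ_add]
  simp only [Fin.append_left, Fin.append_right]
  rw [mul_sub, Finset.mul_sum, Finset.mul_sum, sub_eq_add_neg, add_comm, ← Finset.sum_neg_distrib]
  congr 1
  · exact Finset.sum_congr rfl fun k _ => by ring
  · exact Finset.sum_congr rfl fun k _ => by ring

/-- CG-KMON. -/
theorem t_KMON : S_KDOM → S_KUNIQ → S_KDER → S_KST → S_KMON := by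
  intro hD hU hR hS n N hn F F1 F2 hG hF2 A B hAB
  refine ⟨integrable_FWW hD hn hG A, integrable_FWW hD hn hG B, ?_⟩
  set h : ℝ → ℝ := fun τ => ∫ z, F (WW (cv A B τ) z) ∂gam (N + N) with hh
  have hd : ∀ θ, HasDerivAt h (∑ i, ∑ j, (∑ k, cv' A B θ i k * cv A B θ j k) *
      ∫ z, F2 (WW (cv A B θ) z) * (ee (cv A B θ) i z * ee (cv A B θ) j z) ∂gam (N + N)) θ := by
    intro θ
    have h1 := hR n (N + N) hn F F1 F2 hG (cv A B) (cv' A B) (hasDerivAt_cv A B)
      (continuous_cv' A B) θ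
    rw [hS n (N + N) hn F F1 F2 hG (cv A B θ) (cv' A B θ)] at h1
    exact h1
  have hpi : (0 : ℝ) ≤ Real.pi / 2 := by positivity
  have hmono : MonotoneOn h (Icc 0 (Real.pi / 2)) := by
    refine monotoneOn_of_deriv_nonneg (convex_Icc _ _)
      (fun θ _ => (hd θ).continuousAt.continuousWithinAt)
      (fun θ _ => (hd θ).differentiableAt.differentiableWithinAt) fun θ hθ => ?_
    rw [interior_Icc] at hθ
    rw [(hd θ).deriv]
    have hs : 0 ≤ Real.sin θ := Real.sin_nonneg_of_nonneg_of_le_pi hθ.1.le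
      (by linarith [hθ.2, Real.pi_pos])
    have hc : 0 ≤ Real.cos θ := Real.cos_nonneg_of_mem_Icc
      ⟨by linarith [hθ.1, Real.pi_pos], hθ.2.le⟩
    refine Finset.sum_nonneg fun i _ => Finset.sum_nonneg fun j _ => mul_nonneg ?_ ?_
    · rw [sum_cv']
      exact mul_nonneg (mul_nonneg hs hc) (sub_nonneg.2 (hAB i j))
    · exact integral_nonneg fun z => mul_nonneg (hF2 _ (WW_pos hn _ z))
        (mul_pos (ee_pos _ _ _) (ee_pos _ _ _)).le
  have h1 : h 0 ≤ h (Real.pi / 2) := hmono ⟨le_rfl, hpi⟩ ⟨hpi, le_rfl⟩ hpi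
  have h2 : h 0 = ∫ z, F (WW A z) ∂gam N := by
    refine integral_gram hU hn hG _ _ fun i j => ?_
    rw [sum_cv, Real.cos_zero, Real.sin_zero]
    ring
  have h3 : h (Real.pi / 2) = ∫ z, F (WW B z) ∂gam N := by
    refine integral_gram hU hn hG _ _ fun i j => ?_
    rw [sum_cv, Real.cos_pi_div_two, Real.sin_pi_div_two]
    ring
  rw [h2, h3] at h1
  exact h1

end Pool.Agent.H155.CG.KMON
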